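import Pool.Agent.P.MP_414122_co.ThUpper

open Filter Topology Pool.Agent.P.MP_414122_co

theorem Pool.Agent.Results.MP_414122_co.Threshold.result (S : Set ℝ)
    (hS : S = {g : ℝ | ∃ C : (n : ℕ) → Set (Equiv.Perm (Fin n)),
      (∀ (n k : ℕ) (π : Equiv.Perm (Fin n)) (σ : Equiv.Perm (Fin k)),
        π ∈ C n → Contains π σ → σ ∈ C k) ∧
      (∀ (k m : ℕ) (σ : Equiv.Perm (Fin k)) (τ : Equiv.Perm (Fin m)),
        σ ∈ C k → τ ∈ C m → dsum σ τ ∈ C (k + m)) ∧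
      1 < limsup (fun n : ℕ =>
        ((Nat.card {π : Equiv.Perm (Fin n) // π ∈ C n ∧ Indecomposable π} : ℕ) : ENNReal) ^
          ((1 : ℝ) / (n : ℝ))) atTop ∧
      Tendsto (fun n : ℕ => ((Nat.card (C n) : ℕ) : ℝ) ^ ((1 : ℝ) / (n : ℝ))) atTop (𝓝 g)}) :
    ∃ θ : ℝ, θ ^ 3 - 3 * θ ^ 2 + 2 * θ - 1 = 0 ∧ 232 / 100 < θ ∧ θ < 233 / 100 ∧
      IsGLB S θ ∧ θ ∉ S := by
  obtain ⟨θ, ⟨a1, a2⟩, hθ⟩ := intermediate_value_Ioo (show (232 / 100 : ℝ) ≤ 233 / 100 by norm_num)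
    (show ContinuousOn (fun θ : ℝ => θ ^ 3 - 3 * θ ^ 2 + 2 * θ - 1) _ by fun_prop)
    (show (0 : ℝ) ∈ _ by constructor <;> norm_num)
  have low : ∀ g ∈ S, θ < g := by
    rintro g hg
    obtain ⟨C, h1, h2, h3, h4⟩ := hS ▸ hg
    exact Th.lower hθ (by linarith) h1 h2 h3 h4
  refine ⟨θ, hθ, a1, a2, ⟨fun g hg => (low g hg).le, fun b hb => le_of_forall_gt_imp_ge_of_dense
    fun t ht => ?_⟩, fun h => lt_irrefl _ (low θ h)⟩
  obtain ⟨C, g, h1, h2, h3, h4, h5⟩ := Th.upper hθ (by linarith) ht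
  exact (hb (hS ▸ ⟨C, h1, h2, h3, h4⟩ : g ∈ S)).trans h5

/-- The negated form of the question is an instance: the infimum is below `1 + √2`. -/
theorem Pool.Agent.Results.MP_414122_co.Threshold.negated_form :
    ∃ C : (n : ℕ) → Set (Equiv.Perm (Fin n)),
      (∀ (n k : ℕ) (π : Equiv.Perm (Fin n)) (σ : Equiv.Perm (Fin k)),
        π ∈ C n → Contains π σ → σ ∈ C k) ∧
      (∀ (k m : ℕ) (σ : Equiv.Perm (Fin k)) (τ : Equiv.Perm (Fin m)),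
        σ ∈ C k → τ ∈ C m → dsum σ τ ∈ C (k + m)) ∧
      1 < limsup (fun n : ℕ =>
        ((Nat.card {π : Equiv.Perm (Fin n) // π ∈ C n ∧ Indecomposable π} : ℕ) : ENNReal) ^
          ((1 : ℝ) / (n : ℝ))) atTop ∧
      ∃ g : ℝ,
        Tendsto (fun n : ℕ => ((Nat.card (C n) : ℕ) : ℝ) ^ ((1 : ℝ) / (n : ℝ))) atTop (𝓝 g) ∧
          g < 1 + √2 := by
  obtain ⟨θ, -, -, h1, h2, -⟩ := Pool.Agent.Results.MP_414122_co.Threshold.result _ rfl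
  have h3 : (7 / 5 : ℝ) < √2 := Real.lt_sqrt_of_sq_lt (by norm_num)
  obtain ⟨g, ⟨C, a, b, c, d⟩, e⟩ := (isGLB_lt_iff h2).1 (show θ < 1 + √2 by linarith)
  exact ⟨C, a, b, c, g, d, e⟩
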